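import Pool.Agent.D0H19.CB.Near
import Pool.Agent.D0H19.CB.Arg
import Pool.Agent.D0H19.CB.Equiv
import Pool.Agent.D0H19.CB.Phases

/-!
# The phases for which the law for near-coincidences of powers holds for all moduli

The related conjecture of the problem file says that complex numbers `α`, `β` with `|α|, |β| > 1` are
multiplicatively independent if and only if the number of the pairs `(n, m)` with `|α ^ n - β ^ m| ≤ x` is
asymptotic to `(log x) ^ 2 / (log |α| log |β|)`.  We determine the phases `ζ`, `ξ` for which it is true for all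
moduli, that is for all `α = a ζ`, `β = b ξ` with real `a, b > 1`: it is true if and only if `ζ`, `ξ` are not
resonant.  If `ζ` and `ξ` are algebraic, or if their arguments are algebraic over `ℚ(π)`, they are resonant if
and only if both are roots of unity.  For fixed `ξ` the angles `φ` for which `e ^ (i φ)`, `ξ` are resonant form a
set of Hausdorff dimension zero.  Q1 is equivalent to the law for all `(π ζ, e ξ)`, `|ζ| = |ξ| = 1`.

Proof.  If `|α ^ n - β ^ m| ≥ |α| ^ (n / 2)` with finitely many exceptions, a count of lattice points gives the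
law.  An exception, a near miss, gives `|ζ ^ n - ξ ^ m| ≤ 2 |α| ^ (- n / 2)` and a similar inequality for
`n log |α| - m log |β|`.  So infinitely many near misses give resonance; conversely one can choose the moduli if
`ζ`, `ξ` are resonant.  For algebraic phases the subspace theorem shows that `ζ ^ n = ξ ^ m` with finitely many
exceptions, and if not both are roots of unity all these `(n, m)` are proportional.  For arguments which are
algebraic over `ℚ(π)` the measure of transcendence of `π` takes the place of the subspace theorem.  That two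
roots of unity are resonant follows from Baire's theorem.
-/

set_option autoImplicit false

namespace Pool.Agent.Results.MP_606be1_nt.ComplexBases

open Real Filter Asymptotics

/-- the pairs of natural numbers `(n, m)` with `|α ^ n - β ^ m| ≤ x` -/
def pairs (α β : ℂ) (x : ℝ) : Set (ℕ × ℕ) := {p | ‖α ^ p.1 - β ^ p.2‖ ≤ x}

/-- `α` and `β` are multiplicatively independent -/
def MulIndep (α β : ℂ) : Prop := ∀ p q : ℤ, α ^ p * β ^ q = 1 → p = 0 ∧ q = 0

/-- the number of the pairs is asymptotic to `(log x) ^ 2 / (log |α| log |β|)` -/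
def Law (α β : ℂ) : Prop :=
  (fun x : ℝ => (((pairs α β x).ncard : ℕ) : ℝ)) ~[atTop] (fun x : ℝ => log x ^ 2 / (log ‖α‖ * log ‖β‖))

/-- the number of the pairs is finite and equal to `(log x) ^ 2 / (log |α| log |β|) + O(log x)` -/
def StrongLaw (α β : ℂ) : Prop :=
  (∀ x : ℝ, (pairs α β x).Finite) ∧
    ∃ C : ℝ, ∀ x : ℝ, 2 ≤ x →
      |(((pairs α β x).ncard : ℕ) : ℝ) - log x ^ 2 / (log ‖α‖ * log ‖β‖)| ≤ C * log x

/-- the related conjecture for the pair `α`, `β` -/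
def Conjecture (α β : ℂ) : Prop := MulIndep α β ↔ Law α β

/-- `z` is a root of unity -/
def RootOfUnity (z : ℂ) : Prop := ∃ k : ℕ, 1 ≤ k ∧ z ^ k = 1

/-- `ζ` and `ξ` are resonant: for some `κ, δ > 0` there are infinitely many `(n, m)` with
`|ζ ^ n - ξ ^ m| < e ^ (- δ n)` and `|κ n - m| < e ^ (- δ n)`; and `ζ ^ p ≠ ξ ^ q` for all `p, q ≥ 1` with
`κ p = q` -/
def Resonant (ζ ξ : ℂ) : Prop :=
  ∃ κ δ : ℝ, 0 < κ ∧ 0 < δ ∧
    {t : ℕ × ℕ | ‖ζ ^ t.1 - ξ ^ t.2‖ < exp (-(δ * t.1)) ∧ |κ * t.1 - t.2| < exp (-(δ * t.1))}.Infinite ∧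
    ∀ p q : ℕ, 1 ≤ p → 1 ≤ q → κ * p = q → ζ ^ p ≠ ξ ^ q

/-- `r` is algebraic over `ℚ(π)` -/
def AlgPi (r : ℝ) : Prop := IsAlgebraic (IntermediateField.adjoin ℚ ({π} : Set ℝ)) r

/-- the question Q1 -/
def Q1 : Prop :=
  (fun x : ℝ => (({p : ℕ × ℕ | |π ^ p.1 - exp 1 ^ p.2| ≤ x}.ncard : ℕ) : ℝ)) ~[atTop]
    (fun x : ℝ => log x ^ 2 / log π)

lemma indep_iff {α β : ℂ} (hα : 1 < ‖α‖) (hβ : 1 < ‖β‖) :
    MulIndep α β ↔ Pool.Agent.D0H19.CB.MulIndep α β := by
  have hα0 : α ≠ 0 := norm_ne_zero_iff.1 (by linarith)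
  have hβ0 : β ≠ 0 := norm_ne_zero_iff.1 (by linarith)
  have hlα : 0 < log ‖α‖ := log_pos hα
  have hlβ : 0 < log ‖β‖ := log_pos hβ
  constructor
  · intro h p q hp hq hpq
    have h1 := (h p (-q) (by
      rw [zpow_neg, zpow_natCast, zpow_natCast, hpq, mul_inv_cancel₀ (pow_ne_zero _ hβ0)])).1
    omega
  · intro h p q hpq
    have hn : (p : ℝ) * log ‖α‖ + q * log ‖β‖ = 0 := by
      have h1 := congrArg (fun z : ℂ => log ‖z‖) hpq
      simp only [norm_mul, norm_zpow, norm_one, log_one] at h1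
      rwa [log_mul (by positivity) (by positivity), log_zpow, log_zpow] at h1
    rcases lt_trichotomy p 0 with hp | hp | hp
    · exfalso
      have hp' : (p : ℝ) < 0 := by exact_mod_cast hp
      have hq : 0 < q := by
        by_contra hq
        have hq' : (q : ℝ) ≤ 0 := by exact_mod_cast not_lt.1 hq
        nlinarith
      obtain ⟨p', hp'e⟩ := Int.eq_ofNat_of_zero_le (by omega : 0 ≤ -p)
      obtain ⟨q', hq'e⟩ := Int.eq_ofNat_of_zero_le hq.le
      refine h p' q' (by omega) (by omega) ?_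
      have e1 : p = -(p' : ℤ) := by omega
      rw [e1, hq'e, zpow_neg, zpow_natCast, zpow_natCast, inv_mul_eq_one₀ (pow_ne_zero _ hα0)] at hpq
      exact hpq
    · rw [hp, Int.cast_zero, zero_mul, zero_add] at hn
      have := (mul_eq_zero.1 hn).resolve_right hlβ.ne'
      exact ⟨hp, by exact_mod_cast this⟩
    · exfalso
      have hp' : (0 : ℝ) < p := by exact_mod_cast hp
      have hq : q < 0 := by
        by_contra hq
        have hq' : (0 : ℝ) ≤ q := by exact_mod_cast not_lt.1 hq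
        nlinarith
      obtain ⟨p', hp'e⟩ := Int.eq_ofNat_of_zero_le hp.le
      obtain ⟨q', hq'e⟩ := Int.eq_ofNat_of_zero_le (by omega : 0 ≤ -q)
      refine h p' q' (by omega) (by omega) ?_
      have e1 : q = -(q' : ℤ) := by omega
      rw [e1, hp'e, zpow_neg, zpow_natCast, zpow_natCast, mul_inv_eq_one₀ (pow_ne_zero _ hβ0)] at hpq
      exact hpq

/-- the law implies independence -/
lemma indep_of_law {α β : ℂ} (hα : 1 < ‖α‖) (hβ : 1 < ‖β‖) (h : Law α β) : MulIndep α β := by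
  rw [indep_iff hα hβ]
  by_contra hcon
  exact Pool.Agent.D0H19.CB.infinite_of_dep hcon zero_le_one (Pool.Agent.D0H19.CB.fin_of_AL hα hβ h 1)

lemma norm_a {a : ℝ} (ha : 1 < a) {ζ : ℂ} (hζ : ‖ζ‖ = 1) : ‖(a : ℂ) * ζ‖ = a := by
  rw [norm_mul, hζ, Complex.norm_real, norm_of_nonneg (by linarith), mul_one]

lemma strong_of {ζ ξ : ℂ} (hζ : ‖ζ‖ = 1) (hξ : ‖ξ‖ = 1) (h : ¬Resonant ζ ξ) {a b : ℝ} (ha : 1 < a) (hb : 1 < b)
    (hM : MulIndep (a * ζ) (b * ξ)) : StrongLaw (a * ζ) (b * ξ) :=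
  Pool.Agent.D0H19.CB.char hζ hξ h ha hb
    ((indep_iff (by rw [norm_a ha hζ]; exact ha) (by rw [norm_a hb hξ]; exact hb)).1 hM)

lemma crit {ζ ξ : ℂ} (hζ : ‖ζ‖ = 1) (hξ : ‖ξ‖ = 1) :
    (∀ a b : ℝ, 1 < a → 1 < b → Conjecture (a * ζ) (b * ξ)) ↔ ¬Resonant ζ ξ := by
  constructor
  · intro h hR
    obtain ⟨a, b, ha, hb, hM, hinf⟩ := Pool.Agent.D0H19.CB.inf_of_res hζ hξ hR
    have hα : 1 < ‖(a : ℂ) * ζ‖ := by rw [norm_a ha hζ]; exact ha
    have hβ : 1 < ‖(b : ℂ) * ξ‖ := by rw [norm_a hb hξ]; exact hb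
    have h1 : Law (a * ζ) (b * ξ) := (h a b ha hb).1 ((indep_iff hα hβ).2 hM)
    exact hinf 1 one_pos (Pool.Agent.D0H19.CB.fin_of_AL hα hβ h1 1)
  · intro h a b ha hb
    have hα : 1 < ‖(a : ℂ) * ζ‖ := by rw [norm_a ha hζ]; exact ha
    have hβ : 1 < ‖(b : ℂ) * ξ‖ := by rw [norm_a hb hξ]; exact hb
    exact ⟨fun hM => Pool.Agent.D0H19.CB.AL_of_law hα hβ (strong_of hζ hξ h ha hb hM), indep_of_law hα hβ⟩

/-- phases with good approximation properties -/
lemma res_iff {ζ ξ : ℂ} (hζ : ‖ζ‖ = 1) (hξ : ‖ξ‖ = 1) (hG : Pool.Agent.D0H19.CB.Good ζ ξ) :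
    Resonant ζ ξ ↔ RootOfUnity ζ ∧ RootOfUnity ξ := by
  constructor
  · intro h
    by_contra hT
    exact Pool.Agent.D0H19.CB.not_res_of_good hζ hξ hG hT h
  · rintro ⟨h1, h2⟩
    exact Pool.Agent.D0H19.CB.res_tors h1 h2

lemma good_alg {ζ ξ : ℂ} (hζ : ‖ζ‖ = 1) (hξ : ‖ξ‖ = 1) (h1 : IsAlgebraic ℚ ζ) (h2 : IsAlgebraic ℚ ξ) :
    Pool.Agent.D0H19.CB.Good ζ ξ := fun _ hδ =>
  Pool.Agent.D0H19.CB.near_alg (norm_ne_zero_iff.1 (by rw [hζ]; exact one_ne_zero))
    (norm_ne_zero_iff.1 (by rw [hξ]; exact one_ne_zero)) h1 h2 hδ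

/-- a phase which is no root of unity and a positive base are independent -/
lemma indep_left {ζ : ℂ} (hζ : ‖ζ‖ = 1) (hT : ¬RootOfUnity ζ) {a b : ℝ} (ha : 1 < a) (hb : 1 < b) :
    MulIndep (a * ζ) b ∧ MulIndep a (b * ζ) := by
  have hb' : ‖(b : ℂ)‖ = b := by rw [Complex.norm_real, norm_of_nonneg (by linarith)]
  have ha' : ‖(a : ℂ)‖ = a := by rw [Complex.norm_real, norm_of_nonneg (by linarith)]
  constructor
  · rw [indep_iff (by rw [norm_a ha hζ]; exact ha) (by rw [hb']; exact hb)]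
    intro p q hp hq hpq
    apply hT
    refine ⟨p, hp, ?_⟩
    have h1 : a ^ p = b ^ q := by
      have := congrArg norm hpq
      rwa [norm_pow, norm_pow, norm_a ha hζ, hb'] at this
    rw [mul_pow, ← Complex.ofReal_pow, ← Complex.ofReal_pow, h1] at hpq
    exact mul_left_cancel₀ (by exact_mod_cast (pow_pos (by linarith : 0 < b) q).ne') (hpq.trans (mul_one _).symm)
  · rw [indep_iff (by rw [ha']; exact ha) (by rw [norm_a hb hζ]; exact hb)]
    intro p q hp hq hpq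
    apply hT
    refine ⟨q, hq, ?_⟩
    have h1 : a ^ p = b ^ q := by
      have := congrArg norm hpq
      rwa [norm_pow, norm_pow, norm_a hb hζ, ha'] at this
    rw [mul_pow, ← Complex.ofReal_pow, ← Complex.ofReal_pow, h1] at hpq
    exact mul_left_cancel₀ (by exact_mod_cast (pow_pos (by linarith : 0 < b) q).ne') (hpq.symm.trans (mul_one _).symm)

lemma e_gt : 1 < exp 1 := by
  rw [one_lt_exp_iff]
  exact one_pos

/-- one phase is trivial -/
lemma one_phase {ζ : ℂ} (hζ : ‖ζ‖ = 1) (hT : ¬RootOfUnity ζ)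
    (h : IsAlgebraic ℚ ζ ∨ ∃ r : ℝ, AlgPi r ∧ ζ = Complex.exp (r * Complex.I)) {a b : ℝ} (ha : 1 < a)
    (hb : 1 < b) : StrongLaw (a * ζ) b ∧ StrongLaw a (b * ζ) := by
  have h0 : AlgPi 0 := isAlgebraic_zero
  have e0 : Complex.exp (((0 : ℝ) : ℂ) * Complex.I) = 1 := by simp
  have hG : Pool.Agent.D0H19.CB.Good ζ 1 ∧ Pool.Agent.D0H19.CB.Good 1 ζ := by
    rcases h with h | ⟨r, hr, rfl⟩
    · exact ⟨good_alg hζ norm_one h isAlgebraic_one, good_alg norm_one hζ isAlgebraic_one h⟩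
    · have h1 := Pool.Agent.D0H19.CB.good_arg hr h0
      have h2 := Pool.Agent.D0H19.CB.good_arg h0 hr
      rw [e0] at h1 h2
      exact ⟨h1, h2⟩
  obtain ⟨i1, i2⟩ := indep_left hζ hT ha hb
  constructor
  · have h1 := strong_of hζ norm_one (fun h => hT ((res_iff hζ norm_one hG.1).1 h).1) ha hb (by rwa [mul_one])
    rwa [mul_one] at h1
  · have h1 := strong_of norm_one hζ (fun h => hT ((res_iff norm_one hζ hG.2).1 h).2) ha hb (by rwa [mul_one])
    rwa [mul_one] at h1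

lemma exp_I_tors : ¬RootOfUnity (Complex.exp ((1 : ℝ) * Complex.I)) := by
  intro h
  obtain ⟨q, hq⟩ := Pool.Agent.D0H19.CB.tors_exp h
  apply irrational_pi
  refine ⟨q⁻¹, ?_⟩
  push_cast
  have hq0 : (q : ℝ) ≠ 0 := by
    intro h0
    rw [h0, zero_mul] at hq
    exact one_ne_zero hq
  field_simp
  linarith

lemma example_pi : StrongLaw π (Complex.exp (1 + Complex.I)) := by
  have hπ : 1 < π := by linarith [pi_gt_three]
  have h := (one_phase (Complex.norm_exp_ofReal_mul_I 1) exp_I_tors (Or.inr ⟨1, isAlgebraic_one, rfl⟩) hπ e_gt).2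
  have e1 : ((exp 1 : ℝ) : ℂ) * Complex.exp ((1 : ℝ) * Complex.I) = Complex.exp (1 + Complex.I) := by
    rw [Complex.ofReal_exp, ← Complex.exp_add]
    congr 1
    push_cast
    ring
  rwa [e1] at h

lemma q1_iff : Q1 ↔ ∀ ζ ξ : ℂ, ‖ζ‖ = 1 → ‖ξ‖ = 1 → Law (π * ζ) (exp 1 * ξ) := by
  have hπ : 1 < π := by linarith [pi_gt_three]
  have e1 : ‖(π : ℂ)‖ = π := by rw [Complex.norm_real, norm_of_nonneg (by linarith)]
  have e2 : ‖((exp 1 : ℝ) : ℂ)‖ = exp 1 := by rw [Complex.norm_real, norm_of_nonneg (exp_pos 1).le]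
  have e3 : ∀ x : ℝ, pairs (π : ℂ) ((exp 1 : ℝ) : ℂ) x = {p : ℕ × ℕ | |π ^ p.1 - exp 1 ^ p.2| ≤ x} := by
    intro x
    ext p
    simp only [pairs, Set.mem_ofPred_eq]
    rw [← Complex.ofReal_pow, ← Complex.ofReal_pow, ← Complex.ofReal_sub, Complex.norm_real, norm_eq_abs]
  have h0 : Q1 ↔ Law (π : ℂ) ((exp 1 : ℝ) : ℂ) := by
    unfold Q1 Law
    simp only [e3, e1, e2, log_exp, mul_one]
  rw [h0]
  constructor
  · intro h ζ ξ hζ hξ
    have n1 := norm_a hπ hζ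
    have n2 := norm_a e_gt hξ
    refine Pool.Agent.D0H19.CB.AL_phase (α := π * ζ) (β := (exp 1 : ℝ) * ξ) (by rw [n1]; exact hπ)
      (by rw [n2]; exact e_gt) ?_
    rw [n1, n2]
    exact h
  · intro h
    have := h 1 1 norm_one norm_one
    rwa [mul_one, mul_one] at this

/-- **Theorem.** Let `|ζ| = |ξ| = 1`.
(1) The related conjecture is true for all pairs `a ζ`, `b ξ` with real `a, b > 1` if and only if `ζ`, `ξ` are not
resonant, and then the number of the pairs is `(log x) ^ 2 / (log a log b) + O(log x)` whenever `a ζ` and `b ξ`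
are multiplicatively independent.
(2) `ζ`, `1` are resonant if and only if for some `δ > 0` there are infinitely many `n` with
`|ζ ^ n - 1| < e ^ (- δ n)`.
(3) Algebraic `ζ`, `ξ` are resonant if and only if both are roots of unity.
(4) The same for `ζ = e ^ (i r)`, `ξ = e ^ (i s)` with `r`, `s` algebraic over `ℚ(π)`.
(5) For every `ξ` the real `φ` for which `e ^ (i φ)`, `ξ` are resonant form a set of Hausdorff dimension zero.
(6) Q1 is true if and only if the law is true for all pairs `π ζ`, `e ξ`.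
(7) If `ζ` is no root of unity, and `ζ` is algebraic or `ζ = e ^ (i r)` with `r` algebraic over `ℚ(π)`, the law
with the error `O(log x)` holds for `a ζ`, `b` and for `a`, `b ζ` for all real `a, b > 1`; it holds for `π` and
`e ^ (1 + i)`. -/
theorem result :
    (∀ ζ ξ : ℂ, ‖ζ‖ = 1 → ‖ξ‖ = 1 →
      ((∀ a b : ℝ, 1 < a → 1 < b → Conjecture (a * ζ) (b * ξ)) ↔ ¬Resonant ζ ξ) ∧
      (¬Resonant ζ ξ → ∀ a b : ℝ, 1 < a → 1 < b → MulIndep (a * ζ) (b * ξ) → StrongLaw (a * ζ) (b * ξ))) ∧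
    (∀ ζ : ℂ, ‖ζ‖ = 1 →
      (Resonant ζ 1 ↔ ∃ δ : ℝ, 0 < δ ∧ {n : ℕ | ‖ζ ^ n - 1‖ < exp (-(δ * n))}.Infinite)) ∧
    (∀ ζ ξ : ℂ, ‖ζ‖ = 1 → ‖ξ‖ = 1 → IsAlgebraic ℚ ζ → IsAlgebraic ℚ ξ →
      (Resonant ζ ξ ↔ RootOfUnity ζ ∧ RootOfUnity ξ)) ∧
    (∀ r s : ℝ, AlgPi r → AlgPi s →
      (Resonant (Complex.exp (r * Complex.I)) (Complex.exp (s * Complex.I)) ↔
        RootOfUnity (Complex.exp (r * Complex.I)) ∧ RootOfUnity (Complex.exp (s * Complex.I)))) ∧
    (∀ ξ : ℂ, ‖ξ‖ = 1 → dimH {φ : ℝ | Resonant (Complex.exp (φ * Complex.I)) ξ} = 0) ∧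
    (Q1 ↔ ∀ ζ ξ : ℂ, ‖ζ‖ = 1 → ‖ξ‖ = 1 → Law (π * ζ) (exp 1 * ξ)) ∧
    (∀ ζ : ℂ, ‖ζ‖ = 1 → ¬RootOfUnity ζ →
      (IsAlgebraic ℚ ζ ∨ ∃ r : ℝ, AlgPi r ∧ ζ = Complex.exp (r * Complex.I)) →
        ∀ a b : ℝ, 1 < a → 1 < b → StrongLaw (a * ζ) b ∧ StrongLaw a (b * ζ)) ∧
    StrongLaw π (Complex.exp (1 + Complex.I)) :=
  ⟨fun _ _ hζ hξ => ⟨crit hζ hξ, fun h _ _ ha hb hM => strong_of hζ hξ h ha hb hM⟩,
    fun ζ _ => Pool.Agent.D0H19.CB.res_one ζ,
    fun _ _ hζ hξ h1 h2 => res_iff hζ hξ (good_alg hζ hξ h1 h2),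
    fun r s hr hs => res_iff (Complex.norm_exp_ofReal_mul_I r) (Complex.norm_exp_ofReal_mul_I s)
      (Pool.Agent.D0H19.CB.good_arg hr hs),
    fun _ hξ => Pool.Agent.D0H19.CB.dim_res hξ, q1_iff,
    fun _ hζ hT h _ _ ha hb => one_phase hζ hT h ha hb, example_pi⟩

end Pool.Agent.Results.MP_606be1_nt.ComplexBases
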