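import Mathlib
import Pool.Agent.D0H48.LD.Tops
import Pool.Agent.D0H48.LD.Upper
import Pool.Agent.D0H48.LD.Extra

/-!
# The exact size of the set of the bases for which the near-coincidence law fails

Q1 is about the asymptotic `N(x) ~ (log x) ^ 2 / log π` for the number `N(x)` of the pairs `(n, m)` with
`|π ^ n - e ^ m| ≤ x`. It is known (`DilatedNearCoincidences`) that for a fixed base `b > 1` the
analogous law for `|a ^ n - b ^ m| ≤ x` holds for all bases `a > 1` outside a set of Hausdorff
dimension zero. This file determines the size of the exceptional set with the logarithmic gauge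
functions `(log (1 / r)) ^ (-s)`: the Hausdorff measure is `0` for `s > 2` and it is `∞` for all
`s ≤ 2`, in every open interval of `(1, ∞)`, even for the bases with infinitely many pairs for every
`x > 0`. These bases are comeagre, so the law fails for the generic base, though it holds outside a
set which is far smaller than any set of positive Hausdorff dimension.

The upper bound is a covering argument. For the lower bound the points `b ^ (m / n)` are well
distributed (a count of Farey fractions by the Möbius function, `Pool.Agent.D0H48.LD.Farey`), and the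
critical exponent needs a Cantor construction where every interval has children of many generations at
the same time (`Pool.Agent.D0H48.LD.Crit`, `Crit2`, `Crit3`).
-/

set_option autoImplicit false

open MeasureTheory Filter Topology Set Asymptotics
open scoped ENNReal

namespace Pool.Agent.Results.MP_606be1_nt.ExceptionalBases

/-- the pairs `(n, m)` of natural numbers with `|a ^ n - b ^ m| ≤ x` -/
def pairs (a b x : ℝ) : Set (ℕ × ℕ) := {p | |a ^ p.1 - b ^ p.2| ≤ x}

/-- The law for the bases `a, b`: for all `x` there are finitely many pairs with `|a ^ n - b ^ m| ≤ x`,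
and their number is asymptotic to `(log x) ^ 2 / (log a log b)`. Q1 asks whether `Law π e`. -/
def Law (a b : ℝ) : Prop :=
  (∀ x : ℝ, (pairs a b x).Finite) ∧
    (fun x : ℝ => (((pairs a b x).ncard : ℕ) : ℝ)) ~[atTop]
      (fun x : ℝ => Real.log x ^ 2 / (Real.log a * Real.log b))

/-- there are infinitely many pairs with `|a ^ n - b ^ m| ≤ x`, for every `x > 0` -/
def Always (a b : ℝ) : Prop := ∀ x : ℝ, 0 < x → (pairs a b x).Infinite

/-- the gauge function `(log (1 / r)) ^ (-s)` (with the value `0` at `r = 0`) -/
noncomputable def gauge (s : ℝ) (r : ℝ≥0∞) : ℝ≥0∞ :=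
  ENNReal.ofReal (Real.log (1 / r.toReal) ^ (-s))

theorem pairs_eq (a b x : ℝ) : DilatedNearCoincidences.pairs a b 1 x = pairs a b x := by
  unfold DilatedNearCoincidences.pairs pairs
  simp only [one_mul]

theorem infinite_of_not_law {a b : ℝ} (ha : 1 < a) (hb : 1 < b) (h : ¬ Law a b) :
    (DilatedNearCoincidences.nearMisses a b 1).Infinite := by
  intro hfin
  have h1 := Pool.Agent.D0H48.LD.law_of_finite ha hb one_pos hfin
  unfold Pool.Agent.D0H48.LD.Law0 at h1
  simp only [pairs_eq] at h1
  exact h h1

theorem always_iff (a b : ℝ) : Always a b ↔ Pool.Agent.D0H48.LD.Inf a b 1 := by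
  unfold Always Pool.Agent.D0H48.LD.Inf pairs
  simp only [one_mul]

/-- **Theorem.** Let `b > 1`. Let `E` be the set of the bases `a > 1` for which the law for the pairs with
`|a ^ n - b ^ m| ≤ x` fails, and let `E'` be the set of the `a > 1` with infinitely many such pairs for
every `x > 0`; `E'` is contained in `E`. The Hausdorff measure of `E` for the gauge function
`(log (1 / r)) ^ (-s)` is zero for `s > 2`, and for `0 < s ≤ 2` the one of `E'` is infinite in every
open interval of `(1, ∞)`. Moreover `E'` is comeagre in `(1, ∞)`. -/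
theorem result (b : ℝ) (hb : 1 < b) :
    (∀ a : ℝ, Always a b → ¬ Law a b) ∧
    (∀ s : ℝ, 2 < s → Measure.mkMetric (gauge s) {a : ℝ | 1 < a ∧ ¬ Law a b} = 0) ∧
    (∀ s : ℝ, 0 < s → s ≤ 2 → ∀ u v : ℝ, 1 ≤ u → u < v →
      Measure.mkMetric (gauge s) {a : ℝ | u < a ∧ a < v ∧ Always a b} = ⊤) ∧
    (∀ᶠ a in residual ℝ, 1 < a → Always a b) := by
  refine ⟨fun a h hl => h 1 one_pos (hl.1 1), fun s hs => ?_, fun s hs0 hs u v hu huv => ?_, ?_⟩
  · refine measure_mono_null ?_ (Pool.Agent.D0H48.LD.bases_null hb one_pos hs)
    rintro a ⟨ha, hl⟩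
    exact ⟨ha, infinite_of_not_law ha hb hl⟩
  · refine top_le_iff.1 ?_
    refine (Pool.Agent.D0H48.LD.bases_top' hb hs0 hs hu huv).ge.trans (measure_mono ?_)
    rintro a ⟨h1, h2, h3⟩
    exact ⟨h2, h3, (always_iff a b).2 h1⟩
  · filter_upwards [Pool.Agent.D0H48.LD.resid_bases hb] with a ha ha1
    exact (always_iff a b).2 (ha ha1)

end Pool.Agent.Results.MP_606be1_nt.ExceptionalBases
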