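import Mathlib
import Pool.Agent.D0H48.LD.Tops
import Pool.Agent.D0H48.LD.Upper
import Pool.Agent.D0H48.LD.Extra

/-!
# The exact size of the set of the dilations for which the near-coincidence law fails

Q1 is about the asymptotic `N(x) ~ (log x) ^ 2 / log π` for the number `N(x)` of the pairs `(n, m)` with
`|π ^ n - e ^ m| ≤ x`. It is known (`DilatedNearCoincidences`) that for fixed bases `a, b > 1` the
analogous law for `|c a ^ n - b ^ m| ≤ x` holds for all dilations `c > 0` outside a set of Hausdorff
dimension zero. This file determines the size of the exceptional set. If `a` and `b` are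
multiplicatively dependent it is countable. Otherwise, with the logarithmic gauge functions
`(log (1 / r)) ^ (-s)`, the Hausdorff measure is `0` for `s > 1` and it is `∞` for all `s ≤ 1`, in every
open interval of `(0, ∞)`, even for the dilations with infinitely many pairs for every `x > 0`, and these
dilations are comeagre: the law fails for the generic dilation. (It is not known which of the two cases
holds for `a = π`, `b = e`.)

The upper bound is a covering argument. For the lower bound the points `b ^ m / a ^ n` are well
distributed along the denominators of the good rational approximations of `log a / log b`, for every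
irrational `log a / log b` (`Pool.Agent.D0H48.LD.Dil`), and the critical exponent needs a Cantor
construction where every interval has children of many generations at the same time
(`Pool.Agent.D0H48.LD.Crit`, `Crit2`, `Crit3`).
-/

set_option autoImplicit false

open MeasureTheory Filter Topology Set Asymptotics
open scoped ENNReal

namespace Pool.Agent.Results.MP_606be1_nt.ExceptionalDilations

/-- the pairs `(n, m)` of natural numbers with `|c a ^ n - b ^ m| ≤ x` -/
def pairs (a b c x : ℝ) : Set (ℕ × ℕ) := {p | |c * a ^ p.1 - b ^ p.2| ≤ x}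

/-- The law for `a, b, c`: for all `x` there are finitely many pairs with `|c a ^ n - b ^ m| ≤ x`, and
their number is asymptotic to `(log x) ^ 2 / (log a log b)`. Q1 asks whether `Law π e 1`. -/
def Law (a b c : ℝ) : Prop :=
  (∀ x : ℝ, (pairs a b c x).Finite) ∧
    (fun x : ℝ => (((pairs a b c x).ncard : ℕ) : ℝ)) ~[atTop]
      (fun x : ℝ => Real.log x ^ 2 / (Real.log a * Real.log b))

/-- there are infinitely many pairs with `|c a ^ n - b ^ m| ≤ x`, for every `x > 0` -/
def Always (a b c : ℝ) : Prop := ∀ x : ℝ, 0 < x → (pairs a b c x).Infinite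

/-- the gauge function `(log (1 / r)) ^ (-s)` (with the value `0` at `r = 0`) -/
noncomputable def gauge (s : ℝ) (r : ℝ≥0∞) : ℝ≥0∞ :=
  ENNReal.ofReal (Real.log (1 / r.toReal) ^ (-s))

theorem infinite_of_not_law {a b c : ℝ} (ha : 1 < a) (hb : 1 < b) (hc : 0 < c) (h : ¬ Law a b c) :
    (DilatedNearCoincidences.nearMisses a b c).Infinite := fun hfin =>
  h (Pool.Agent.D0H48.LD.law_of_finite ha hb hc hfin)

/-- **Theorem.** Let `a, b > 1`. Let `E` be the set of the dilations `c > 0` for which the law for the
pairs with `|c a ^ n - b ^ m| ≤ x` fails, and let `E'` be the set of the `c > 0` with infinitely many such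
pairs for every `x > 0`; `E'` is contained in `E`. If `log a / log b` is rational then `E` is countable.
If it is irrational, then the Hausdorff measure of `E` for the gauge function `(log (1 / r)) ^ (-s)` is
zero for `s > 1`, and for `0 < s ≤ 1` the one of `E'` is infinite in every open interval of `(0, ∞)`,
and `E'` is comeagre in `(0, ∞)`. -/
theorem result (a b : ℝ) (ha : 1 < a) (hb : 1 < b) :
    (∀ c : ℝ, Always a b c → ¬ Law a b c) ∧
    (¬ Irrational (Real.log a / Real.log b) → {c : ℝ | 0 < c ∧ ¬ Law a b c}.Countable) ∧
    (Irrational (Real.log a / Real.log b) →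
      (∀ s : ℝ, 1 < s → Measure.mkMetric (gauge s) {c : ℝ | 0 < c ∧ ¬ Law a b c} = 0) ∧
      (∀ s : ℝ, 0 < s → s ≤ 1 → ∀ u v : ℝ, 0 ≤ u → u < v →
        Measure.mkMetric (gauge s) {c : ℝ | u < c ∧ c < v ∧ Always a b c} = ⊤) ∧
      (∀ᶠ c in residual ℝ, 0 < c → Always a b c)) := by
  refine ⟨fun c h hl => h 1 one_pos (hl.1 1), fun hab => ?_, fun hab =>
    ⟨fun s hs => ?_, fun s hs0 hs u v hu huv => ?_, ?_⟩⟩
  · refine (Pool.Agent.D0H48.LD.dep_countable ha hb hab).mono ?_
    rintro c ⟨hc, hl⟩
    exact ⟨hc, infinite_of_not_law ha hb hc hl⟩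
  · refine measure_mono_null ?_ (Pool.Agent.D0H48.LD.dil_null ha hb hs)
    rintro c ⟨hc, hl⟩
    exact ⟨hc, infinite_of_not_law ha hb hc hl⟩
  · refine top_le_iff.1 ?_
    refine (Pool.Agent.D0H48.LD.dil_top' ha hb hab hs0 hs hu huv).ge.trans (measure_mono ?_)
    rintro c ⟨h1, h2, h3⟩
    exact ⟨h2, h3, h1⟩
  · exact Pool.Agent.D0H48.LD.resid_dil ha hb hab

end Pool.Agent.Results.MP_606be1_nt.ExceptionalDilations
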