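import Pool.Agent.D0H73.NCO.Law
import Pool.Agent.D0H73.NCO.Dim

/-!
# The second order law for near-coincidences of two sequences of powers

Let `a, b > 1` and `c > 0`, and let `N(x)` be the number of the pairs `(n, m)` with
`|c a ^ n - b ^ m| ≤ x` (in Q1 `a = π`, `b = e`, `c = 1`). The explicit function `F` is
`(⌊U⌋ + 1) (⌊V⌋ + 1)` plus two logarithmic terms, with `U = log (x / c) / log a` and
`V = log x / log b`.

* For all `a, b` and `c = 1` the count off few lines through near misses is `F + O(log log x)`.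
* For all `a, b` and all `c` outside a set of Hausdorff dimension zero `N = F + O(log log x)`.
* For all `b, c` the same holds for all `a` outside a set of Hausdorff dimension zero.
* The error term `N(x) - log x log (x / c) / (log a log b)`, divided by `log x`, has the cluster set
  `[0, 1 / log a + 1 / log b]`, and along every progression `x₀ a ^ k` or `x₀ b ^ k` it is
  asymptotically uniformly distributed in an interval.
* For all `a, b, c` there is no second term: the error is not `κ log x + o(log x)`.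
-/

set_option autoImplicit false

namespace Pool.Agent.Results.MP_606be1_nt.SecondOrderLaw

open Real Filter

/-- the pairs of natural numbers `(n, m)` with `|c a ^ n - b ^ m| ≤ x` -/
def pairs (a b c x : ℝ) : Set (ℕ × ℕ) := {p | |c * a ^ p.1 - b ^ p.2| ≤ x}

/-- the explicit function: `(⌊U⌋ + 1) (⌊V⌋ + 1)` and the terms
`min (log x) (log (1 / (1 - {U}))) / log b` and `min (log x) (log (1 / (1 - {V}))) / log a`,
where `U = log (x / c) / log a` and `V = log x / log b` -/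
noncomputable def F (a b c x : ℝ) : ℝ :=
  (⌊log (x / c) / log a⌋ + 1) * (⌊log x / log b⌋ + 1) +
    min (log x) (log (1 / (1 - Int.fract (log (x / c) / log a)))) / log b +
    min (log x) (log (1 / (1 - Int.fract (log x / log b)))) / log a

/-- the error term of a counting function `N`, divided by `log x` -/
noncomputable def err (a b c : ℝ) (N : ℝ → ℝ) (x : ℝ) : ℝ :=
  (N x - log x * log (x / c) / (log a * log b)) / log x

/-- the error term divided by `log x`: its cluster set is `[0, 1 / log a + 1 / log b]`, and along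
`x₀ a ^ k` and `x₀ b ^ k` it is asymptotically uniformly distributed in an interval -/
def Law (a b c : ℝ) (N : ℝ → ℝ) : Prop :=
  (∀ r : ℝ, MapClusterPt r atTop (err a b c N) ↔ 0 ≤ r ∧ r ≤ 1 / log a + 1 / log b) ∧
  ∀ x₀ : ℝ, 0 < x₀ → ∀ r : ℝ, 0 ≤ r → r ≤ 1 →
    Tendsto (fun K : ℕ => (({k : ℕ | k < K ∧ err a b c N (x₀ * a ^ k) ≤
      (1 - Int.fract (log (x₀ / c) / log a)) / log b + r / log a}.ncard : ℕ) : ℝ) / K) atTop
      (nhds r) ∧
    Tendsto (fun K : ℕ => (({k : ℕ | k < K ∧ err a b c N (x₀ * b ^ k) ≤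
      (1 - Int.fract (log x₀ / log b)) / log a + r / log b}.ncard : ℕ) : ℝ) / K) atTop
      (nhds r)

/-- the tower `2 ^ 2 ^ ... ^ 2` of height `h` -/
def tower : ℕ → ℕ
  | 0 => 1
  | h + 1 => 2 ^ tower h

/-- `p` is a multiple of a member of `L` -/
def OnLine (L : Set (ℕ × ℕ)) (p : ℕ × ℕ) : Prop := ∃ l ∈ L, ∃ g : ℕ, p = (g * l.1, g * l.2)

/-- the pairs with `|a ^ n - b ^ m| ≤ x`, without those which have `a ^ n > x`, `b ^ m > x` and are
multiples of a member of `L` -/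
def pairsOff (L : Set (ℕ × ℕ)) (a b x : ℝ) : Set (ℕ × ℕ) :=
  {p | |a ^ p.1 - b ^ p.2| ≤ x ∧ (a ^ p.1 ≤ x ∨ b ^ p.2 ≤ x ∨ ¬ OnLine L p)}

theorem tower_eq (h : ℕ) : tower h = Pool.Agent.TH709.NC.tow h := by
  induction h with
  | zero => rfl
  | succ h ih => rw [tower, Pool.Agent.TH709.NC.tow, ih]

theorem law_of {a b c : ℝ} (ha : 1 < a) (hb : 1 < b) (hc : 0 < c)
    (hθ : Irrational (log a / log b)) {N : ℝ → ℝ} {C : ℝ} (hC : 0 ≤ C)
    (hN : ∀ x : ℝ, C ≤ x → |N x - Pool.Agent.D0H73.NCO.F a b c x| ≤ C * log (log x)) :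
    Law a b c N := by
  refine ⟨fun r => Pool.Agent.D0H73.NCO.cluster ha hb hc hθ hN r, fun x₀ hx₀ r hr0 hr1 => ⟨?_, ?_⟩⟩
  · have h := Pool.Agent.D0H73.NCO.law_a ha hb hc hθ hC hN hx₀ r hr0 hr1
    have e : 1 / log a * r = r / log a := by ring
    rw [e] at h
    exact h
  · have h := Pool.Agent.D0H73.NCO.law_b ha hb hc hθ hC hN hx₀ r hr0 hr1
    have e : 1 / log b * r = r / log b := by ring
    rw [e] at h
    exact h

theorem result :
    -- all bases, `c = 1`: off few lines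
    (∀ a b : ℝ, 1 < a → 1 < b → ∃ (L : Set (ℕ × ℕ)) (C : ℝ),
      (∀ l ∈ L, 1 ≤ l.1 ∧ l.1.Coprime l.2 ∧ |a ^ l.1 - b ^ l.2| ^ 2 < a ^ l.1) ∧
      (∀ h : ℕ, {l | l ∈ L ∧ l.1 ≤ tower h}.Finite ∧
        (({l | l ∈ L ∧ l.1 ≤ tower h}.ncard : ℕ) : ℝ) ≤ h + C) ∧
      (∀ x : ℝ, C ≤ x → (pairsOff L a b x).Finite ∧
        |(((pairsOff L a b x).ncard : ℕ) : ℝ) - F a b 1 x| ≤ C * log (log x)) ∧
      (Irrational (log a / log b) →
        Law a b 1 (fun x => (((pairsOff L a b x).ncard : ℕ) : ℝ)))) ∧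
    -- all bases, all dilations outside a set of dimension zero
    (∀ a b : ℝ, 1 < a → 1 < b → ∃ E : Set ℝ, dimH E = 0 ∧ ∀ c : ℝ, 0 < c → c ∉ E →
      (∃ C : ℝ, ∀ x : ℝ, C ≤ x → (pairs a b c x).Finite ∧
        |(((pairs a b c x).ncard : ℕ) : ℝ) - F a b c x| ≤ C * log (log x)) ∧
      (Irrational (log a / log b) →
        Law a b c (fun x => (((pairs a b c x).ncard : ℕ) : ℝ)))) ∧
    -- all `b`, `c` (in particular `c = 1`), all `a` outside a set of dimension zero
    (∀ b c : ℝ, 1 < b → 0 < c → ∃ E : Set ℝ, dimH E = 0 ∧ ∀ a : ℝ, 1 < a → a ∉ E →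
      (∃ C : ℝ, ∀ x : ℝ, C ≤ x → (pairs a b c x).Finite ∧
        |(((pairs a b c x).ncard : ℕ) : ℝ) - F a b c x| ≤ C * log (log x)) ∧
      Law a b c (fun x => (((pairs a b c x).ncard : ℕ) : ℝ))) ∧
    -- all bases and dilations: there is no second term
    (∀ a b c : ℝ, 1 < a → 1 < b → 0 < c → ∀ κ : ℝ,
      ¬ (fun x : ℝ => (((pairs a b c x).ncard : ℕ) : ℝ) - log x ^ 2 / (log a * log b) -
        κ * log x) =o[atTop] (fun x : ℝ => log x)) := by
  refine ⟨fun a b ha hb => ?_, fun a b ha hb => ?_, fun b c hb hc => ?_,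
    fun a b c ha hb hc κ => Pool.Agent.D0H73.NCO.no_second ha hb hc κ⟩
  · obtain ⟨C₁, h1⟩ := Pool.Agent.TH709.NC.thin ha hb
    obtain ⟨C₂, hC₂, h2⟩ := Pool.Agent.D0H73.NCO.off_count ha hb
    refine ⟨Pool.Agent.TH709.NC.LL a b, max (max C₁ C₂) (exp (exp 1)), fun l hl => hl,
      fun h => ⟨Pool.Agent.TH709.NC.LL_fin ha hb (tower h), ?_⟩, fun x hx => ?_, fun hθ => ?_⟩
    · rw [tower_eq]
      have h3 : (({l | l ∈ Pool.Agent.TH709.NC.LL a b ∧
          l.1 ≤ Pool.Agent.TH709.NC.tow h}.ncard : ℕ) : ℝ) ≤ h + C₁ := by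
        exact_mod_cast h1 h
      have h4 : (C₁ : ℝ) ≤ max (max (C₁ : ℝ) C₂) (exp (exp 1)) :=
        (le_max_left _ _).trans (le_max_left _ _)
      linarith
    · have h5 : C₂ ≤ max (max (C₁ : ℝ) C₂) (exp (exp 1)) :=
        (le_max_right _ _).trans (le_max_left _ _)
      have h6 : exp (exp 1) ≤ x := (le_max_right _ _).trans hx
      obtain ⟨h3, h4⟩ := h2 x (h5.trans hx)
      refine ⟨h3, h4.trans (mul_le_mul_of_nonneg_right h5 ?_)⟩
      have h7 : exp 1 ≤ log x := (le_log_iff_exp_le (lt_of_lt_of_le (exp_pos _) h6)).2 h6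
      exact log_nonneg ((one_le_exp (by norm_num)).trans h7)
    · exact law_of ha hb one_pos hθ hC₂.le fun x hx => (h2 x hx).2
  · refine ⟨_, Pool.Agent.D0H73.NCO.dim_c ha hb, fun c hc hcE => ?_⟩
    have hg : Pool.Agent.D0H73.NCO.Good a b c := by
      by_contra h
      exact hcE ⟨hc, h⟩
    obtain ⟨C, hC, h⟩ := Pool.Agent.D0H73.NCO.good_count ha hb hc hg
    exact ⟨⟨C, h⟩, fun hθ => law_of ha hb hc hθ hC.le fun x hx => (h x hx).2⟩
  · refine ⟨{a : ℝ | 1 < a ∧ ¬ Pool.Agent.D0H73.NCO.Good a b c} ∪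
      {a : ℝ | 1 < a ∧ ¬ Irrational (log a / log b)}, ?_, fun a ha haE => ?_⟩
    · rw [dimH_union, Pool.Agent.D0H73.NCO.dim_a hb hc, Pool.Agent.D0H73.NCO.dim_rat hb]
      simp
    · have hg : Pool.Agent.D0H73.NCO.Good a b c := by
        by_contra h
        exact haE (Or.inl ⟨ha, h⟩)
      have hθ : Irrational (log a / log b) := by
        by_contra h
        exact haE (Or.inr ⟨ha, h⟩)
      obtain ⟨C, hC, h⟩ := Pool.Agent.D0H73.NCO.good_count ha hb hc hg
      exact ⟨⟨C, h⟩, law_of ha hb hc hθ hC.le fun x hx => (h x hx).2⟩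

end Pool.Agent.Results.MP_606be1_nt.SecondOrderLaw
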